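import Pool.Agent.K1H35.SH.Stm2
import Pool.Agent.K1H33.SH.Sw
import Pool.Agent.K1H33.SH.Dc

/-!
# Piece LOD of the project SQ: lower tail of the number of edges inside `U`, one step
-/

set_option autoImplicit false

namespace Pool.Agent.K1H89.SQ

open Finset Pool.Agent.K1H35.SH
open Pool.Agent.K1H33.SH (mem_nb mem_reg sw_sw)

open Classical in
theorem cnt_def (n d : ℕ) (P : SimpleGraph (Fin n) → Prop) :
    cnt n d P = ((reg n d).filter P).card := by
  unfold cnt
  refine congrArg Finset.card ?_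
  ext G
  simp only [mem_filter]

open Classical in
theorem mem_flt {n d : ℕ} {P : SimpleGraph (Fin n) → Prop} {G : SimpleGraph (Fin n)} :
    G ∈ (reg n d).filter P ↔ G ∈ reg n d ∧ P G := mem_filter

open Classical in
theorem E2_def {n : ℕ} (G : SimpleGraph (Fin n)) (U : Finset (Fin n)) :
    E2 G U = (univ.filter (fun p : Fin n × Fin n => p.1 ∈ U ∧ p.2 ∈ U ∧ G.Adj p.1 p.2)).card := by
  unfold E2
  refine congrArg Finset.card ?_
  ext p
  simp only [mem_filter]

section deg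

variable {n d : ℕ} {G : SimpleGraph (Fin n)}

open Classical in
theorem card_fst (hG : G ∈ reg n d) (S : Finset (Fin n)) :
    ((S ×ˢ (univ : Finset (Fin n))).filter (fun p => G.Adj p.1 p.2)).card = S.card * d := by
  rw [card_filter, sum_product]
  have h : ∀ s ∈ S, ∑ y, (if G.Adj s y then 1 else 0) = d := by
    intro s _
    rw [← card_filter, ← mem_reg.1 hG s]
    congr 1
  rw [sum_congr rfl h, sum_const, smul_eq_mul]

open Classical in
theorem card_snd (hG : G ∈ reg n d) (S : Finset (Fin n)) :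
    (((univ : Finset (Fin n)) ×ˢ S).filter (fun p => G.Adj p.1 p.2)).card = S.card * d := by
  rw [card_filter, sum_product_right]
  have h : ∀ s ∈ S, ∑ y, (if G.Adj y s then 1 else 0) = d := by
    intro s _
    rw [← card_filter, ← mem_reg.1 hG s]
    congr 1
    ext y
    simp [mem_nb, G.adj_comm]
  rw [sum_congr rfl h, sum_const, smul_eq_mul]

open Classical in
/-- the pairs used in step A -/
noncomputable def PA (G : SimpleGraph (Fin n)) (U : Finset (Fin n)) (b x : Fin n) :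
    Finset (Fin n × Fin n) :=
  univ.filter (fun p => G.Adj p.1 p.2 ∧ p.1 ∉ U ∧ p.2 ∉ U ∧ ¬ G.Adj b p.1 ∧ b ≠ p.1 ∧
    ¬ G.Adj x p.2 ∧ x ≠ p.2)

theorem card_PA (hG : G ∈ reg n d) (U : Finset (Fin n)) (b x : Fin n) :
    n * d ≤ (PA G U b x).card + (2 * U.card * d + 2 * (d + 1) * d) := by
  classical
  have h1 : (((univ : Finset (Fin n)) ×ˢ (univ : Finset (Fin n))).filter
      (fun p => G.Adj p.1 p.2)) ⊆
      (PA G U b x) ∪ ((U ×ˢ univ).filter (fun p => G.Adj p.1 p.2) ∪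
        ((univ ×ˢ U).filter (fun p => G.Adj p.1 p.2) ∪
        (((insert b (nb G b)) ×ˢ univ).filter (fun p => G.Adj p.1 p.2) ∪
          (univ ×ˢ (insert x (nb G x))).filter (fun p => G.Adj p.1 p.2)))) := by
    rintro ⟨g, y⟩ h
    simp only [mem_filter, mem_product, mem_univ, true_and, and_true, mem_union, PA, mem_insert,
      mem_nb] at h ⊢
    by_cases h1 : g ∈ U
    · simp [h, h1]
    by_cases h2 : y ∈ U
    · simp [h, h2]
    by_cases h3 : G.Adj b g
    · simp [h, h3]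
    by_cases h4 : b = g
    · subst h4; simp [h]
    by_cases h5 : G.Adj x y
    · simp [h, h5]
    by_cases h6 : x = y
    · subst h6; simp [h]
    · left
      exact ⟨h, h1, h2, h3, h4, h5, h6⟩
  have h2 := card_le_card h1
  rw [card_fst hG univ, card_univ, Fintype.card_fin] at h2
  have h3 := card_union_le (PA G U b x) ((U ×ˢ univ).filter (fun p => G.Adj p.1 p.2) ∪
        ((univ ×ˢ U).filter (fun p => G.Adj p.1 p.2) ∪
        (((insert b (nb G b)) ×ˢ univ).filter (fun p => G.Adj p.1 p.2) ∪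
          (univ ×ˢ (insert x (nb G x))).filter (fun p => G.Adj p.1 p.2))))
  have h4 := card_union_le ((U ×ˢ univ).filter (fun p => G.Adj p.1 p.2))
        ((univ ×ˢ U).filter (fun p => G.Adj p.1 p.2) ∪
        (((insert b (nb G b)) ×ˢ univ).filter (fun p => G.Adj p.1 p.2) ∪
          (univ ×ˢ (insert x (nb G x))).filter (fun p => G.Adj p.1 p.2)))
  have h5 := card_union_le ((univ ×ˢ U).filter (fun p => G.Adj p.1 p.2))
        (((insert b (nb G b)) ×ˢ univ).filter (fun p => G.Adj p.1 p.2) ∪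
          (univ ×ˢ (insert x (nb G x))).filter (fun p => G.Adj p.1 p.2))
  have h6 := card_union_le (((insert b (nb G b)) ×ˢ univ).filter (fun p => G.Adj p.1 p.2))
          ((univ ×ˢ (insert x (nb G x))).filter (fun p => G.Adj p.1 p.2))
  rw [card_fst hG] at h4 h6
  rw [card_snd hG] at h5 h6
  have hb : (insert b (nb G b)).card ≤ d + 1 := by
    refine (card_insert_le _ _).trans ?_
    rw [mem_reg.1 hG b]
  have hx : (insert x (nb G x)).card ≤ d + 1 := by
    refine (card_insert_le _ _).trans ?_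
    rw [mem_reg.1 hG x]
  have hb' := Nat.mul_le_mul_right d hb
  have hx' := Nat.mul_le_mul_right d hx
  nlinarith

end deg

/-- pairs with a vertex not touched by the switch are unchanged -/
theorem unch {n : ℕ} {G : SimpleGraph (Fin n)} {a b c e : Fin n} (h : Val G (a, b, c, e))
    {p q : Fin n} (h1 : p ≠ a) (h2 : p ≠ b) (h3 : p ≠ c) (h4 : p ≠ e) :
    (sw (a, b, c, e) G).Adj p q ↔ G.Adj p q := by
  rw [(Pool.Agent.K1H33.SH.t_SW n G a b c e h).1 p q]
  have k : ∀ u v : Fin n, p ≠ u → p ≠ v → s(p, q) ≠ s(u, v) := by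
    intro u v hu hv he
    rw [Sym2.eq_iff] at he
    rcases he with ⟨e1, _⟩ | ⟨e1, _⟩
    · exact hu e1
    · exact hv e1
  have k1 := k a c h1 h3
  have k2 := k b e h2 h4
  have k3 := k a b h1 h2
  have k4 := k c e h3 h4
  simp [k1, k2, k3, k4]

/-- the condition without the pair `bx` -/
def Pb {n : ℕ} (U : Finset (Fin n)) (e : ℕ) (G : SimpleGraph (Fin n)) (t : Tup n) : Prop :=
  E2 G U = 2 * e ∧ ¬ G.Adj t.1 t.2.2.1 ∧ G.Adj t.1 t.2.1 ∧ G.Adj t.2.2.1 t.2.2.2

theorem stepA {n d e : ℕ} {U : Finset (Fin n)} (hn : 64 * d ≤ n) (hd : 64 ≤ d)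
    (hU : 8 * U.card ≤ n) {a b c x : Fin n} (ha : a ∈ U) (hc : c ∈ U) (hb : b ∉ U) (hx : x ∉ U) :
    32 * cnt n d (fun G => Pb U e G (a, b, c, x) ∧ G.Adj b x) ≤
      cnt n d (fun G => Pb U e G (a, b, c, x) ∧ ¬ G.Adj b x) := by
  classical
  have key := Pool.Agent.K1H33.SH.t_DC n d (fun G => Pb U e G (a, b, c, x) ∧ G.Adj b x)
    (fun G => Pb U e G (a, b, c, x) ∧ ¬ G.Adj b x)
    (fun G => (PA G U b x).image (fun p => (b, x, p.1, p.2)))
    (fun G => (nb G b ×ˢ nb G x).image (fun p => (b, x, p.1, p.2)))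
    (n * d - (2 * U.card * d + 2 * (d + 1) * d)) (d * d) ?_ ?_ ?_
  · have h1 : n * d ≤ 2 * (n * d - (2 * U.card * d + 2 * (d + 1) * d)) := by
      have h3 : 2 * (2 * U.card * d + 2 * (d + 1) * d) ≤ n * d := by
        have : 2 * (2 * U.card + 2 * (d + 1)) ≤ n := by omega
        calc 2 * (2 * U.card * d + 2 * (d + 1) * d) = 2 * (2 * U.card + 2 * (d + 1)) * d := by ring
          _ ≤ n * d := Nat.mul_le_mul_right _ this
      omega
    set g1 := cnt n d (fun G => Pb U e G (a, b, c, x) ∧ G.Adj b x)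
    set g0 := cnt n d (fun G => Pb U e G (a, b, c, x) ∧ ¬ G.Adj b x)
    set f := n * d - (2 * U.card * d + 2 * (d + 1) * d)
    have h4 : (n * d) * g1 ≤ 2 * (d * d * g0) := by
      calc (n * d) * g1 ≤ 2 * f * g1 := Nat.mul_le_mul_right _ h1
        _ = 2 * (f * g1) := by ring
        _ ≤ 2 * (d * d * g0) := Nat.mul_le_mul_left _ key
    have h5 : (64 * d * d) * g1 ≤ (n * d) * g1 :=
      Nat.mul_le_mul_right _ (Nat.mul_le_mul_right _ hn)
    have h6 : (2 * (d * d)) * (32 * g1) ≤ (2 * (d * d)) * g0 := by nlinarith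
    exact Nat.le_of_mul_le_mul_left h6 (by positivity)
  · rintro G hG ⟨hP, hbx⟩ t ht
    rw [mem_image] at ht
    obtain ⟨⟨g, y⟩, hp, rfl⟩ := ht
    simp only [PA, mem_filter, mem_univ, true_and] at hp
    obtain ⟨q1, q2, q3, q4, q5, q6, q7⟩ := hp
    have hV : Val G (b, x, g, y) := ⟨hbx, q1, q4, q5, q6, q7⟩
    obtain ⟨w1, w2, w3, w4, w5, w6, w7⟩ := Pool.Agent.K1H33.SH.t_SW n G b x g y hV
    have un : ∀ p ∈ U, ∀ q, (sw (b, x, g, y) G).Adj p q ↔ G.Adj p q := fun p hp q =>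
      unch hV (fun h => hb (h ▸ hp)) (fun h => hx (h ▸ hp)) (fun h => q2 (h ▸ hp))
        (fun h => q3 (h ▸ hp))
    refine ⟨w7 d hG, ⟨⟨?_, ?_, ?_, ?_⟩, ?_⟩, ?_⟩
    · rw [← hP.1, E2_def, E2_def]
      congr 1
      ext p
      simp only [mem_filter, mem_univ, true_and]
      constructor
      · rintro ⟨r1, r2, r3⟩; exact ⟨r1, r2, (un _ r1 _).1 r3⟩
      · rintro ⟨r1, r2, r3⟩; exact ⟨r1, r2, (un _ r1 _).2 r3⟩
    · exact fun h => hP.2.1 ((un a ha c).1 h)
    · exact (un a ha b).2 hP.2.2.1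
    · exact (un c hc x).2 hP.2.2.2
    · rw [← mem_nb, w2, mem_insert, mem_erase]
      rintro (h | h)
      · exact q4 (h ▸ hbx)
      · exact h.1 rfl
    · rw [mem_image]
      refine ⟨(g, y), ?_, rfl⟩
      rw [mem_product]
      constructor
      · rw [w2]; exact mem_insert_self _ _
      · rw [w3]; exact mem_insert_self _ _
  · rintro G hG -
    rw [card_image_of_injective _ (fun p q h => by
      simp only [Prod.mk.injEq, true_and] at h
      exact Prod.ext h.1 h.2)]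
    have := card_PA hG U b x
    omega
  · rintro G hG -
    refine card_image_le.trans ?_
    rw [card_product, mem_reg.1 hG, mem_reg.1 hG]

section lower

variable {n d : ℕ} {G : SimpleGraph (Fin n)}

/-- the conditions on the positions -/
def Qd (U : Finset (Fin n)) (t : Tup n) : Prop :=
  t.1 ∈ U ∧ t.2.2.1 ∈ U ∧ t.2.1 ∉ U ∧ t.2.2.2 ∉ U ∧ t.1 ≠ t.2.2.1 ∧ t.2.1 ≠ t.2.2.2

/-- the conditions on the edges, without the pair `bx` -/
def Pc (G : SimpleGraph (Fin n)) (t : Tup n) : Prop :=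
  ¬ G.Adj t.1 t.2.2.1 ∧ G.Adj t.1 t.2.1 ∧ G.Adj t.2.2.1 t.2.2.2

open Classical in
/-- the tuples of step C without the condition on `bx` -/
noncomputable def F0 (U : Finset (Fin n)) (G : SimpleGraph (Fin n)) : Finset (Tup n) :=
  (univ.filter (Qd U)).filter (Pc G)

open Classical in
/-- the ordered edges leaving `U` -/
noncomputable def XX (U : Finset (Fin n)) (G : SimpleGraph (Fin n)) : Finset (Fin n × Fin n) :=
  univ.filter (fun p => p.1 ∈ U ∧ p.2 ∉ U ∧ G.Adj p.1 p.2)

theorem card_XX (hG : G ∈ reg n d) (U : Finset (Fin n)) :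
    (XX U G).card + E2 G U = U.card * d := by
  classical
  rw [← card_fst hG U, E2_def, ← card_union_of_disjoint]
  · congr 1
    ext ⟨p, q⟩
    simp only [XX, mem_union, mem_filter, mem_univ, true_and, mem_product, and_true]
    tauto
  · rw [disjoint_left]
    rintro ⟨p, q⟩ h1 h2
    simp only [XX, mem_filter, mem_univ, true_and] at h1 h2
    exact h1.2.1 h2.2.1

theorem card_F0 (hG : G ∈ reg n d) (U : Finset (Fin n)) :
    (XX U G).card * (XX U G).card ≤
      (F0 U G).card + 2 * ((XX U G).card * d) + E2 G U * (d * d) := by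
  classical
  have h1 : XX U G ×ˢ XX U G ⊆
      (F0 U G).image (fun t => ((t.1, t.2.1), (t.2.2.1, t.2.2.2))) ∪
      (((XX U G).sigma (fun p => nb G p.1)).image (fun s => (s.1, (s.1.1, s.2))) ∪
      (((XX U G).sigma (fun p => nb G p.2)).image (fun s => (s.1, (s.2, s.1.2))) ∪
      (((univ.filter (fun p : Fin n × Fin n => p.1 ∈ U ∧ p.2 ∈ U ∧ G.Adj p.1 p.2)).sigma
        (fun r => nb G r.1 ×ˢ nb G r.2)).image
          (fun s => ((s.1.1, s.2.1), (s.1.2, s.2.2)))))) := by
    rintro ⟨⟨a, b⟩, ⟨c, x⟩⟩ h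
    simp only [XX, mem_product, mem_filter, mem_univ, true_and] at h
    obtain ⟨⟨a1, a2, a3⟩, ⟨b1, b2, b3⟩⟩ := h
    rw [mem_union, mem_union, mem_union]
    by_cases h1 : a = c
    · right; left
      rw [mem_image]
      refine ⟨⟨(a, b), x⟩, ?_, by rw [h1]⟩
      rw [mem_sigma]
      refine ⟨by simp only [XX, mem_filter, mem_univ, true_and]; exact ⟨a1, a2, a3⟩, ?_⟩
      rw [mem_nb]
      simpa [h1] using b3
    by_cases h2 : b = x
    · right; right; left
      rw [mem_image]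
      refine ⟨⟨(a, b), c⟩, ?_, by rw [h2]⟩
      rw [mem_sigma]
      refine ⟨by simp only [XX, mem_filter, mem_univ, true_and]; exact ⟨a1, a2, a3⟩, ?_⟩
      rw [mem_nb]
      simpa [h2] using b3.symm
    by_cases h3 : G.Adj a c
    · right; right; right
      rw [mem_image]
      refine ⟨⟨(a, c), (b, x)⟩, ?_, rfl⟩
      rw [mem_sigma]
      refine ⟨by simp only [mem_filter, mem_univ, true_and]; exact ⟨a1, b1, h3⟩, ?_⟩
      rw [mem_product, mem_nb, mem_nb]
      exact ⟨a3, b3⟩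
    · left
      rw [mem_image]
      refine ⟨(a, b, c, x), ?_, rfl⟩
      simp only [F0, mem_filter, mem_univ, true_and]
      exact ⟨⟨a1, b1, a2, b2, h1, h2⟩, h3, a3, b3⟩
  have h2 := card_le_card h1
  rw [card_product] at h2
  refine h2.trans ((card_union_le _ _).trans ?_)
  have e1 : ((F0 U G).image (fun t => ((t.1, t.2.1), (t.2.2.1, t.2.2.2)))).card ≤
    (F0 U G).card := card_image_le
  have e2 : (((XX U G).sigma (fun p => nb G p.1)).image (fun s => (s.1, (s.1.1, s.2)))).card ≤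
      (XX U G).card * d := by
    refine card_image_le.trans ?_
    rw [card_sigma, sum_congr rfl (fun p _ => mem_reg.1 hG p.1), sum_const, smul_eq_mul]
  have e3 : (((XX U G).sigma (fun p => nb G p.2)).image (fun s => (s.1, (s.2, s.1.2)))).card ≤
      (XX U G).card * d := by
    refine card_image_le.trans ?_
    rw [card_sigma, sum_congr rfl (fun p _ => mem_reg.1 hG p.2), sum_const, smul_eq_mul]
  have e4 : (((univ.filter (fun p : Fin n × Fin n => p.1 ∈ U ∧ p.2 ∈ U ∧ G.Adj p.1 p.2)).sigma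
        (fun r => nb G r.1 ×ˢ nb G r.2)).image
          (fun s => ((s.1.1, s.2.1), (s.1.2, s.2.2)))).card ≤ E2 G U * (d * d) := by
    refine card_image_le.trans ?_
    rw [card_sigma, sum_congr rfl (fun p _ => by
      rw [card_product, mem_reg.1 hG p.1, mem_reg.1 hG p.2]), sum_const, smul_eq_mul, E2_def]
  have e5 := card_union_le
    (((XX U G).sigma (fun p => nb G p.1)).image (fun s => (s.1, (s.1.1, s.2))))
    (((XX U G).sigma (fun p => nb G p.2)).image (fun s => (s.1, (s.2, s.1.2))) ∪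
      (((univ.filter (fun p : Fin n × Fin n => p.1 ∈ U ∧ p.2 ∈ U ∧ G.Adj p.1 p.2)).sigma
        (fun r => nb G r.1 ×ˢ nb G r.2)).image
          (fun s => ((s.1.1, s.2.1), (s.1.2, s.2.2)))))
  have e6 := card_union_le
    (((XX U G).sigma (fun p => nb G p.2)).image (fun s => (s.1, (s.2, s.1.2))))
      ((((univ.filter (fun p : Fin n × Fin n => p.1 ∈ U ∧ p.2 ∈ U ∧ G.Adj p.1 p.2)).sigma
        (fun r => nb G r.1 ×ˢ nb G r.2)).image
          (fun s => ((s.1.1, s.2.1), (s.1.2, s.2.2)))))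
  omega

/-- arithmetic -/
theorem arith {X F e u d : ℤ} (hu : 64 ≤ u) (hd : 0 ≤ d) (he : 0 ≤ e)
    (h1 : X + 2 * e = u * d) (h2 : X * X ≤ F + 2 * (X * d) + 2 * e * (d * d))
    (h3 : 72 * e ≤ u * d) (h4 : 576 * e ≤ u * u) : (u * d) ^ 2 ≤ 2 * F := by
  set m := u * d with hm
  have h5 : 64 * d ≤ m := by nlinarith
  have hm0 : 0 ≤ m := by positivity
  have h6 : 35 * m ≤ 36 * X := by linarith
  have h7 : 271 * m ≤ 288 * (X - 2 * d) := by linarith
  have h8 : (35 * m) * (271 * m) ≤ (36 * X) * (288 * (X - 2 * d)) :=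
    mul_le_mul h6 h7 (by positivity) (by linarith)
  have h9 : 576 * e * (d * d) ≤ m * m := by
    have : 576 * e * (d * d) ≤ u * u * (d * d) := mul_le_mul_of_nonneg_right h4 (by positivity)
    calc 576 * e * (d * d) ≤ u * u * (d * d) := this
      _ = m * m := by rw [hm]; ring
  nlinarith

theorem low_F0 {e : ℕ} (hG : G ∈ reg n d) {U : Finset (Fin n)} (hn : 64 * d ≤ n) (hd : 64 ≤ d)
    (hu : 64 ≤ U.card) (hU : 8 * U.card ≤ n) (h9 : 9 * (e + 1) * n ≤ d * U.card ^ 2)
    (hE : E2 G U = 2 * e) : (U.card * d) ^ 2 ≤ 2 * (F0 U G).card := by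
  have h1 := card_XX hG U
  have h2 := card_F0 hG U
  rw [hE] at h1 h2
  have h3 : 72 * e ≤ U.card * d := by
    have a1 : 9 * e * (8 * U.card) ≤ d * U.card ^ 2 := by
      calc 9 * e * (8 * U.card) ≤ 9 * (e + 1) * n := Nat.mul_le_mul (by omega) hU
        _ ≤ _ := h9
    have a2 : U.card * (72 * e) ≤ U.card * (U.card * d) := by nlinarith
    exact Nat.le_of_mul_le_mul_left a2 (by omega)
  have h4 : 576 * e ≤ U.card * U.card := by
    have a1 : 9 * e * (64 * d) ≤ d * U.card ^ 2 := by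
      calc 9 * e * (64 * d) ≤ 9 * (e + 1) * n := Nat.mul_le_mul (by omega) hn
        _ ≤ _ := h9
    have a2 : d * (576 * e) ≤ d * (U.card * U.card) := by nlinarith
    exact Nat.le_of_mul_le_mul_left a2 (by omega)
  have h5 := arith (X := (XX U G).card) (F := (F0 U G).card) (e := e) (u := U.card) (d := d)
    (by exact_mod_cast hu) (by positivity) (by positivity) (by exact_mod_cast h1)
    (by exact_mod_cast h2) (by exact_mod_cast h3) (by exact_mod_cast h4)
  exact_mod_cast h5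

end lower

open Classical in
/-- the summed form of the double counting -/
theorem sumDC {n d : ℕ} (P Q : SimpleGraph (Fin n) → Prop)
    (F B : SimpleGraph (Fin n) → Finset (Tup n)) (g : ℕ)
    (h1 : ∀ G ∈ reg n d, P G → ∀ t ∈ F G, sw t G ∈ reg n d ∧ Q (sw t G) ∧ t ∈ B (sw t G))
    (h3 : ∀ G ∈ reg n d, Q G → (B G).card ≤ g) :
    ∑ G ∈ (reg n d).filter P, (F G).card ≤ g * cnt n d Q := by
  have hP : ∀ (p : SimpleGraph (Fin n) → Prop) (G : SimpleGraph (Fin n)),
      G ∈ (reg n d).filter p ↔ G ∈ reg n d ∧ p G := fun p G => mem_filter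
  have e2 : (((reg n d).filter Q).sigma B).card ≤ g * cnt n d Q := by
    rw [card_sigma, cnt_def, mul_comm, ← smul_eq_mul]
    refine sum_le_card_nsmul _ _ _ fun G hG => ?_
    rw [hP] at hG
    exact h3 G hG.1 hG.2
  rw [← card_sigma]
  refine le_trans ?_ e2
  refine Finset.card_le_card_of_injOn (fun p => ⟨sw p.2 p.1, p.2⟩) ?_ ?_
  · rintro ⟨G, t⟩ hp
    rw [mem_coe, mem_sigma, hP] at hp
    obtain ⟨⟨hG, hPG⟩, ht⟩ := hp
    obtain ⟨a1, a2, a3⟩ := h1 G hG hPG t ht
    rw [mem_coe, mem_sigma, hP]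
    exact ⟨⟨a1, a2⟩, a3⟩
  · rintro ⟨G, t⟩ - ⟨G', t'⟩ - h
    simp only [Sigma.mk.injEq, heq_eq_eq] at h
    obtain ⟨h4, h5⟩ := h
    subst h5
    have h6 := congrArg (sw t) h4
    rw [sw_sw, sw_sw] at h6
    rw [h6]

/-- the switch increases the number of ordered pairs by two -/
theorem E2_sw {n : ℕ} {G : SimpleGraph (Fin n)} {U : Finset (Fin n)} {a b c x : Fin n}
    (hV : Val G (a, b, c, x)) (ha : a ∈ U) (hc : c ∈ U) (hb : b ∉ U) (hx : x ∉ U) :
    E2 (sw (a, b, c, x) G) U = E2 G U + 2 := by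
  classical
  have hac : a ≠ c := hV.2.2.2.1
  have hnac : ¬ G.Adj a c := hV.2.2.1
  rw [E2_def, E2_def]
  have h1 : (univ.filter (fun p : Fin n × Fin n => p.1 ∈ U ∧ p.2 ∈ U ∧
      (sw (a, b, c, x) G).Adj p.1 p.2)) =
      insert (a, c) (insert (c, a)
        (univ.filter (fun p : Fin n × Fin n => p.1 ∈ U ∧ p.2 ∈ U ∧ G.Adj p.1 p.2))) := by
    ext ⟨p, q⟩
    simp only [mem_insert, mem_filter, mem_univ, true_and]
    constructor
    · rintro ⟨r1, r2, r3⟩
      rw [(Pool.Agent.K1H33.SH.t_SW n G a b c x hV).1 p q] at r3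
      rcases r3 with (r | r) | r
      · rw [Sym2.eq_iff] at r
        rcases r with ⟨rfl, rfl⟩ | ⟨rfl, rfl⟩
        · exact Or.inl rfl
        · exact Or.inr (Or.inl rfl)
      · rw [Sym2.eq_iff] at r
        rcases r with ⟨rfl, rfl⟩ | ⟨rfl, rfl⟩
        · exact absurd r1 hb
        · exact absurd r1 hx
      · exact Or.inr (Or.inr ⟨r1, r2, r.1⟩)
    · intro h
      have key := (Pool.Agent.K1H33.SH.t_SW n G a b c x hV).1 p q
      rcases h with h | h | ⟨r1, r2, r3⟩
      · obtain ⟨rfl, rfl⟩ := Prod.mk.inj h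
        exact ⟨ha, hc, key.2 (Or.inl (Or.inl rfl))⟩
      · obtain ⟨rfl, rfl⟩ := Prod.mk.inj h
        exact ⟨hc, ha, key.2 (Or.inl (Or.inl Sym2.eq_swap))⟩
      · refine ⟨r1, r2, key.2 (Or.inr ⟨r3, ?_, ?_⟩)⟩
        · intro r
          rw [Sym2.eq_iff] at r
          rcases r with ⟨rfl, rfl⟩ | ⟨rfl, rfl⟩
          · exact hb r2
          · exact hb r1
        · intro r
          rw [Sym2.eq_iff] at r
          rcases r with ⟨rfl, rfl⟩ | ⟨rfl, rfl⟩
          · exact hx r2
          · exact hx r1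
  rw [h1, card_insert_of_notMem, card_insert_of_notMem]
  · simp only [mem_filter, mem_univ, true_and, not_and]
    exact fun _ _ h => hnac h.symm
  · simp only [mem_insert, mem_filter, mem_univ, true_and, not_or, not_and, Prod.mk.injEq]
    exact ⟨fun h => absurd h hac, fun _ _ h => hnac h⟩

theorem t_LOD : S_LOD := by
  classical
  intro n d e U hn hd hu hU h9
  set S := @Finset.filter _ (fun G => E2 G U = 2 * e) (fun _ => Classical.propDecidable _)
    (reg n d) with hS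
  have hSc : S.card = cnt n d (fun G => E2 G U = 2 * e) := (cnt_def _ _ _).symm
  have hSm : ∀ G, G ∈ S ↔ G ∈ reg n d ∧ E2 G U = 2 * e := fun G => by
    rw [hS]
    exact @mem_filter _ _ (fun _ => Classical.propDecidable _) _ _
  clear_value S
  set T : Finset (Tup n) := univ.filter (Qd U) with hT
  -- step A
  have hA : 32 * ∑ G ∈ S, (T.filter (fun t => Pc G t ∧ G.Adj t.2.1 t.2.2.2)).card ≤
      ∑ G ∈ S, (T.filter (fun t => Pc G t ∧ ¬ G.Adj t.2.1 t.2.2.2)).card := by
    have e1 := Finset.sum_card_bipartiteAbove_eq_sum_card_bipartiteBelow (s := S) (t := T)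
      (fun (G : SimpleGraph (Fin n)) (t : Tup n) => Pc G t ∧ G.Adj t.2.1 t.2.2.2)
    have e2 := Finset.sum_card_bipartiteAbove_eq_sum_card_bipartiteBelow (s := S) (t := T)
      (fun (G : SimpleGraph (Fin n)) (t : Tup n) => Pc G t ∧ ¬ G.Adj t.2.1 t.2.2.2)
    unfold Finset.bipartiteAbove Finset.bipartiteBelow at e1 e2
    rw [e1, e2, mul_sum]
    refine sum_le_sum fun t ht => ?_
    obtain ⟨a, b, c, x⟩ := t
    rw [hT, mem_filter] at ht
    obtain ⟨-, t1, t2, t3, t4, t5, t6⟩ := ht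
    have h := stepA (e := e) hn hd hU t1 t2 t3 t4
    have k1 : (S.filter (fun G => Pc G (a, b, c, x) ∧ G.Adj b x)).card =
        cnt n d (fun G => Pb U e G (a, b, c, x) ∧ G.Adj b x) := by
      rw [cnt_def]
      congr 1
      ext G
      rw [mem_filter, hSm, mem_flt]
      simp only [Pb, Pc]
      tauto
    have k2 : (S.filter (fun G => Pc G (a, b, c, x) ∧ ¬ G.Adj b x)).card =
        cnt n d (fun G => Pb U e G (a, b, c, x) ∧ ¬ G.Adj b x) := by
      rw [cnt_def]
      congr 1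
      ext G
      rw [mem_filter, hSm, mem_flt]
      simp only [Pb, Pc]
      tauto
    show 32 * (S.filter (fun G => Pc G (a, b, c, x) ∧ G.Adj b x)).card ≤
      (S.filter (fun G => Pc G (a, b, c, x) ∧ ¬ G.Adj b x)).card
    rw [k1, k2]
    exact h
  -- the total number
  have hB : ∀ G ∈ S, (U.card * d) ^ 2 ≤
      2 * ((T.filter (fun t => Pc G t ∧ G.Adj t.2.1 t.2.2.2)).card +
        (T.filter (fun t => Pc G t ∧ ¬ G.Adj t.2.1 t.2.2.2)).card) := by
    intro G hG
    rw [hSm] at hG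
    refine (low_F0 hG.1 hn hd hu hU h9 hG.2).trans (le_of_eq ?_)
    congr 1
    rw [← Finset.card_filter_add_card_filter_not (s := F0 U G) (fun t => G.Adj t.2.1 t.2.2.2)]
    congr 1
    · congr 1
      ext t
      simp only [F0, hT, mem_filter, mem_univ, true_and]
      tauto
    · congr 1
      ext t
      simp only [F0, hT, mem_filter, mem_univ, true_and]
      tauto
  -- step C
  have hC : ∑ G ∈ S, (T.filter (fun t => Pc G t ∧ ¬ G.Adj t.2.1 t.2.2.2)).card ≤
      (2 * (e + 1) * (n * d)) * cnt n d (fun G => E2 G U = 2 * (e + 1)) := by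
    rw [hS]
    refine sumDC (fun G => E2 G U = 2 * e) (fun G => E2 G U = 2 * (e + 1))
      (fun G => T.filter (fun t => Pc G t ∧ ¬ G.Adj t.2.1 t.2.2.2))
      (fun G => ((univ.filter (fun p : Fin n × Fin n => p.1 ∈ U ∧ p.2 ∈ U ∧ G.Adj p.1 p.2)) ×ˢ
        (((univ : Finset (Fin n)) ×ˢ (univ : Finset (Fin n))).filter
          (fun p => G.Adj p.1 p.2))).image (fun s => (s.1.1, s.2.1, s.1.2, s.2.2))) _ ?_ ?_
    · rintro G hG hP ⟨a, b, c, x⟩ ht
      rw [mem_filter, hT, mem_filter] at ht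
      obtain ⟨⟨-, t1, t2, t3, t4, t5, t6⟩, ⟨s1, s2, s3⟩, s4⟩ := ht
      dsimp only at t1 t2 t3 t4 t5 t6 s1 s2 s3 s4
      have hV : Val G (a, b, c, x) := ⟨s2, s3, s1, t5, s4, t6⟩
      obtain ⟨w1, -, -, -, -, -, w7⟩ := Pool.Agent.K1H33.SH.t_SW n G a b c x hV
      refine ⟨w7 d hG, ?_, ?_⟩
      · rw [E2_sw hV t1 t2 t3 t4, hP]; ring
      · rw [mem_image]
        refine ⟨((a, c), (b, x)), ?_, rfl⟩
        rw [mem_product, mem_filter, mem_filter]
        refine ⟨⟨mem_univ _, t1, t2, ?_⟩, ?_, ?_⟩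
        · exact (w1 a c).2 (Or.inl (Or.inl rfl))
        · simp
        · exact (w1 b x).2 (Or.inl (Or.inr rfl))
    · rintro G hG hQ
      refine card_image_le.trans ?_
      rw [card_product, ← E2_def, card_fst hG, card_univ, Fintype.card_fin, hQ]
  rw [← hSc]
  set a1 := ∑ G ∈ S, (T.filter (fun t => Pc G t ∧ G.Adj t.2.1 t.2.2.2)).card
  set a0 := ∑ G ∈ S, (T.filter (fun t => Pc G t ∧ ¬ G.Adj t.2.1 t.2.2.2)).card
  have hB2 : (U.card * d) ^ 2 * S.card ≤ 2 * (a1 + a0) := by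
    calc (U.card * d) ^ 2 * S.card = ∑ G ∈ S, (U.card * d) ^ 2 := by
          rw [sum_const, smul_eq_mul, mul_comm]
      _ ≤ ∑ G ∈ S, 2 * ((T.filter (fun t => Pc G t ∧ G.Adj t.2.1 t.2.2.2)).card +
        (T.filter (fun t => Pc G t ∧ ¬ G.Adj t.2.1 t.2.2.2)).card) := sum_le_sum hB
      _ = 2 * (a1 + a0) := by rw [← mul_sum, sum_add_distrib]
  set N := cnt n d (fun G => E2 G U = 2 * (e + 1))
  have h10 : 16 * ((U.card * d) ^ 2 * S.card) ≤ 66 * ((e + 1) * (n * d) * N) := by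
    nlinarith
  have h11 : 9 * (66 * ((e + 1) * (n * d) * N)) ≤ 66 * ((U.card * d) ^ 2 * N) := by
    calc 9 * (66 * ((e + 1) * (n * d) * N)) = 66 * d * N * (9 * (e + 1) * n) := by ring
      _ ≤ 66 * d * N * (d * U.card ^ 2) := Nat.mul_le_mul_left _ h9
      _ = 66 * ((U.card * d) ^ 2 * N) := by ring
  have h12 : (U.card * d) ^ 2 * (144 * S.card) ≤ (U.card * d) ^ 2 * (66 * N) := by nlinarith
  have h13 : 144 * S.card ≤ 66 * N := Nat.le_of_mul_le_mul_left h12 (by
    have : 0 < U.card * d := Nat.mul_pos (by omega) (by omega)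
    positivity)
  omega

end Pool.Agent.K1H89.SQ
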